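import Pool.Agent.J4H23.QT.Stm
import Pool.Agent.W705.JR.Vas

set_option autoImplicit false

namespace Pool.Agent.J4H23.QT

open Filter Topology Finset Matrix LaurentPolynomial Pool.Agent.H891R2.Jones Pool.Agent.W639.RB
  Pool.Agent.W705.JR Pool.Agent.H832R3.VJ

theorem nsep {m n : ℕ} (O : Outer m) (w : Fin n → Letter m) (X : Dia) (d : ℕ)
    (hd : 2 * (O.crossings.length + 2 * Nat.card O.P + (2 * m + 1) * n + X.D.crossings.length + 2 * Nat.card X.P) < d) 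
    (h : ¬ Separated d (dia O w) X) : (diagram O w).fPoly = X.D.fPoly := by
  by_contra hne
  apply h
  refine sep_mono ?_ (sep_of_ne (dia O w) X hne)
  have h1 : size X = X.D.crossings.length + 2 * Nat.card X.P := rfl
  rw [size_dia, h1]
  omega

theorem isP_lp {m : ℕ} (j : Fin (m-1)) (t : ℝ) (h0 : 0 ≤ t) (h1 : t ≤ 1) : IsP (lp j t) := by
  classical
  refine ⟨fun l => ?_, ?_⟩
  · unfold lp
    split_ifs <;> linarith
  · unfold lp
    rw [Fintype.sum_prod_type]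
    simp

theorem hitL_stab {m : ℕ} (hm : 1 < m) : ∀ (P : List (Letter m → ℝ)) (W : Submodule ℂ (VV m)), W ∈ Wc m → 
    Stab Set.univ W → hitL gg (xi m) P W = 0
  | [], W, hW, hS => by
    unfold hitL
    rw [if_neg]
    intro hxi
    obtain ⟨O, z, h⟩ := hW
    have h1 := h (hS 0 (Set.mem_univ 0) (by omega) _ hxi)
    rw [LinearMap.mem_ker, fn_apply] at h1
    have h2 : (EE2 0 (xi m)).2 O.up = 0 := rfl
    rw [h2, mul_zero, sub_zero] at h1
    exact Zg_e_ne hm O h1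
  | (p :: P), W, hW, hS => by
    have e1 : hitL gg (xi m) (p :: P) W = 
        ∑ x, p x * hitL gg (xi m) P ((act (gg x))⁻¹ W) := rfl
    rw [e1]
    refine Finset.sum_eq_zero fun x _ => ?_
    rw [hitL_stab hm P _ (Wc_act W hW x) ((Stab_act_iff _ x (Set.mem_univ _) W).2 hS), mul_zero]

/-- exponential decay of the probability that the value of the Jones polynomial is `z` -/
theorem decay (hB : S_BLK) (hD : S_DEC) (m L : ℕ) (ε : ℝ) (hm : 3 ≤ m) (hε : 0 < ε) : 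
    ∃ C r : ℝ, 0 ≤ C ∧ 0 < r ∧ r < 1 ∧ ∀ (O : Outer m) (z : ℂ) (k : ℕ) (P : List (Letter m → ℝ)), 
      Sc (Bl m L ε) k P → hitL gg (xi m) P (LinearMap.ker (fn O z)) ≤ C * r ^ k := by
  obtain ⟨ρ, hρ0, hρ1, hρ⟩ := hB m L ε hm hε
  obtain ⟨C, r, hC, hr0, hr1, h⟩ := hD (VV m) (Letter m) gg (xi m) (Bl m L ε) 
    (by
      rintro b ⟨q, rfl, -, hq, -⟩ p hp
      obtain ⟨x, hx, rfl⟩ := List.mem_map.1 hp
      have := hq x hx
      exact isP_lp x.1 x.2 (by linarith [this.1]) (by linarith [this.2]))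
    {W : Submodule ℂ (VV m) | ¬ Stab Set.univ W} 
    (fun W l hW h1 => hW ((Stab_act_iff _ l (Set.mem_univ _) W).2 h1)) 
    (fun h1 => h1 (fun j _ _ v hv => by
      rw [Submodule.mem_bot] at hv
      rw [hv, Submodule.mem_bot]
      exact Prod.ext (map_zero _) rfl)) ρ hρ0 hρ1 
    (fun b hb f hf => hρ b hb f (fun W hW => hf W (fun h1 => h1 hW))) (Module.finrank ℂ (VV m))
  refine ⟨C, r, hC, hr0, hr1, fun O z k P hP => ?_⟩
  exact h (Wc m) (fun W hW l => Wc_act W hW l) (fun W hW W' h' => Wc_le W hW W' h') 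
    (fun W hW hN P => hitL_stab (by omega) P W hW (by
      by_contra h1
      exact hN h1)) _ ⟨O, z, le_rfl⟩ (Submodule.finrank_le _) k P hP

open Classical in
theorem fin (hB : S_BLK) (hD : S_DEC) (hH : S_HK) (hS : S_SCO) (m L : ℕ) (ε : ℝ) (hm : 3 ≤ m) (hε : 0 < ε) : 
    ∃ C r : ℝ, 0 ≤ C ∧ 0 < r ∧ r < 1 ∧ ∀ (O : Outer m) (n k : ℕ) (c : Fin n → Fin (m-1)) (p : Fin n → ℝ)
      (t : Fin k → ℕ) (X : Dia) (d : ℕ), 
      (∀ i, 0 ≤ p i ∧ p i ≤ 1) → (∀ j, t j + L ≤ n) → (∀ j j', j < j' → t j + L ≤ t j') →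
      (∀ (j : Fin k) (i : Fin n), t j ≤ i → (i : ℕ) < t j + L → ε ≤ p i ∧ p i ≤ 1 - ε) →
      (∀ (j : Fin k) (a : Fin (m-1)), ∃ i : Fin n, t j ≤ i ∧ (i : ℕ) < t j + L ∧ c i = a) →
      2 * (O.crossings.length + 2 * Nat.card O.P + (2 * m + 1) * n + X.D.crossings.length + 2 * Nat.card X.P) < d → 
      ∑ s : Fin n → Bool, (if ¬ Separated d (dia O (fun i => ((s i, c i) : Letter m))) X then 
        ∏ i, (if s i then p i else 1 - p i) else 0) ≤ C * r ^ k := by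
  obtain ⟨C, r, hC, hr0, hr1, h⟩ := decay hB hD m L ε hm hε
  refine ⟨C, r, hC, hr0, hr1, fun O n k c p t X d hp ht htt hw hc hd => ?_⟩
  have h1 := h O (ev 3 le_rfl X.D.fPoly) k _ (hS m L ε hm hε n k c p t hp ht htt hw hc)
  rw [hH m (by omega) _ n O c p] at h1
  refine le_trans (Finset.sum_le_sum fun s _ => ?_) h1
  have h3 : (0:ℝ) ≤ ∏ i, (if s i then p i else 1 - p i) := Finset.prod_nonneg fun i _ => by
    have := hp i
    split_ifs <;> linarith [this.1, this.2]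
  by_cases hw : Separated d (dia O (fun i => ((s i, c i) : Letter m))) X
  · rw [if_neg (not_not.2 hw)]
    split_ifs
    · exact h3
    · exact le_rfl
  · have h2 : (draw O (toL fun i => ((s i, c i) : Letter m))).close.fPoly = X.D.fPoly := nsep O _ X d hd hw
    rw [if_pos hw, if_pos (by rw [h2])]

open Classical in
/-- every window of length `L` contains every gap -/
theorem fin2 (hB : S_BLK) (hD : S_DEC) (hH : S_HK) (hS : S_SCO) (m L : ℕ) (ε : ℝ) (hm : 3 ≤ m) (hε : 0 < ε) : 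
    ∃ C r : ℝ, 0 < r ∧ r < 1 ∧ ∀ (O : Outer m) (n : ℕ) (c : Fin n → Fin (m-1)) (p : Fin n → ℝ)
      (X : Dia) (d : ℕ), (∀ i, ε ≤ p i ∧ p i ≤ 1 - ε) → 
      (∀ (j : ℕ) (a : Fin (m-1)), j + L ≤ n → ∃ i : Fin n, j ≤ i ∧ (i : ℕ) < j + L ∧ c i = a) →
      2 * (O.crossings.length + 2 * Nat.card O.P + (2 * m + 1) * n + X.D.crossings.length + 2 * Nat.card X.P) < d → 
      ∑ s : Fin n → Bool, (if ¬ Separated d (dia O (fun i => ((s i, c i) : Letter m))) X then 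
        ∏ i, (if s i then p i else 1 - p i) else 0) ≤ C * r ^ n := by
  obtain ⟨C, r, hC, hr0, hr1, h⟩ := fin hB hD hH hS m (L + 1) ε hm hε
  have hL : (0:ℝ) < ((L + 1 : ℕ) : ℝ) := by positivity
  set r' : ℝ := r ^ (1 / ((L + 1 : ℕ) : ℝ)) with hr'
  have hr'0 : 0 < r' := Real.rpow_pos_of_pos hr0 _
  have hr'1 : r' < 1 := Real.rpow_lt_one hr0.le hr1 (by positivity)
  have hr'L : r' ^ (L + 1) = r := by
    rw [hr', ← Real.rpow_natCast, ← Real.rpow_mul hr0.le, one_div, inv_mul_cancel₀ hL.ne', Real.rpow_one]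
  refine ⟨C / r, r', hr'0, hr'1, fun O n c p X d hp hc hd => ?_⟩
  have hdiv : (L + 1) * (n / (L + 1)) ≤ n := Nat.mul_div_le n (L + 1)
  have hmod : n < (L + 1) * (n / (L + 1)) + (L + 1) := by
    have h1 := Nat.div_add_mod n (L + 1)
    have h2 : n % (L + 1) < L + 1 := Nat.mod_lt n (by omega)
    omega
  have h1 := h O n (n / (L + 1)) c p (fun j => (L + 1) * (j : ℕ)) X d 
    (fun i => ⟨by linarith [(hp i).1], by linarith [(hp i).2]⟩)
    (fun j => by
      have hj := j.2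
      have : (L + 1) * ((j : ℕ) + 1) ≤ (L + 1) * (n / (L + 1)) := Nat.mul_le_mul_left _ hj
      have e : (L + 1) * ((j : ℕ) + 1) = (L + 1) * (j : ℕ) + (L + 1) := by ring
      omega)
    (fun j j' hjj => by
      have : (L + 1) * ((j : ℕ) + 1) ≤ (L + 1) * (j' : ℕ) := Nat.mul_le_mul_left _ hjj
      have e : (L + 1) * ((j : ℕ) + 1) = (L + 1) * (j : ℕ) + (L + 1) := by ring
      omega)
    (fun j i _ _ => hp i)
    (fun j a => by
      have hj := j.2
      have : (L + 1) * ((j : ℕ) + 1) ≤ (L + 1) * (n / (L + 1)) := Nat.mul_le_mul_left _ hj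
      have e : (L + 1) * ((j : ℕ) + 1) = (L + 1) * (j : ℕ) + (L + 1) := by ring
      obtain ⟨i, h1, h2, h3⟩ := hc ((L + 1) * (j : ℕ)) a (by omega)
      exact ⟨i, h1, by omega, h3⟩) hd
  refine le_trans h1 ?_
  have h2 : r ^ (n / (L + 1)) * r = r' ^ ((L + 1) * (n / (L + 1)) + (L + 1)) := by
    rw [pow_add, pow_mul, hr'L]
  have h3 : r' ^ ((L + 1) * (n / (L + 1)) + (L + 1)) ≤ r' ^ n := pow_le_pow_of_le_one hr'0.le hr'1.le hmod.le
  rw [← h2] at h3
  rw [div_mul_eq_mul_div, le_div_iff₀ hr0]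
  have h4 := mul_le_mul_of_nonneg_left h3 hC
  linarith

end Pool.Agent.J4H23.QT
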