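import Pool.Agent.J4H23.QT.Stm

set_option autoImplicit false

namespace Pool.Agent.J4H23.QT

open Finset Matrix Pool.Agent.H891R2.Jones Pool.Agent.W639.RB Pool.Agent.W705.JR

variable {m : ℕ}

theorem sh_mul_sub {X : Type} (σ τ : Equiv.Perm X) (f : L2 X) : 
    ‖f - sh (σ * τ) f‖ ≤ ‖f - sh σ f‖ + ‖f - sh τ f‖ := by
  have e : f - sh (σ * τ) f = (f - sh σ f) + sh σ (f - sh τ f) := by
    rw [sh_mul, sh_sub]; abel
  rw [e]
  refine le_trans (norm_add_le _ _) ?_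
  rw [sh_norm]

theorem sh_inv_sub {X : Type} (σ : Equiv.Perm X) (f : L2 X) : 
    ‖f - sh σ⁻¹ f‖ = ‖f - sh σ f‖ := by
  have e : f - sh σ⁻¹ f = - sh σ⁻¹ (f - sh σ f) := by
    rw [sh_sub, ← sh_mul, inv_mul_cancel, sh_one]; abel
  rw [e, norm_neg, sh_norm]

theorem act_mul' {V : Type} [AddCommGroup V] [Module ℂ V] (g h : V ≃ₗ[ℂ] V) : 
    act (g * h) = act g * act h := by
  rw [← actH_apply, map_mul, actH_apply, actH_apply]

theorem act_inv' {V : Type} [AddCommGroup V] [Module ℂ V] (g : V ≃ₗ[ℂ] V) : 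
    act g⁻¹ = (act g)⁻¹ := by
  rw [← actH_apply, map_inv, actH_apply]

theorem four {X : Type} (a b : Equiv.Perm X) (f : L2 X) (δ : ℝ) (ha : ‖f - sh a f‖ ≤ δ) 
    (hb : ‖f - sh b f‖ ≤ δ) : ‖f - sh (a * b * a⁻¹ * b⁻¹) f‖ ≤ 4 * δ := by
  have h1 := sh_mul_sub (a * b * a⁻¹) b⁻¹ f
  have h2 := sh_mul_sub (a * b) a⁻¹ f
  have h3 := sh_mul_sub a b f
  rw [sh_inv_sub] at h1 h2
  linarith

theorem four' {X : Type} (a b : Equiv.Perm X) (f : L2 X) (δ : ℝ) (ha : ‖f - sh a f‖ ≤ δ) 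
    (hb : ‖f - sh b f‖ ≤ δ) : ‖f - sh (a⁻¹ * b * a * b⁻¹) f‖ ≤ 4 * δ := by
  have h1 := sh_mul_sub (a⁻¹ * b * a) b⁻¹ f
  have h2 := sh_mul_sub (a⁻¹ * b) a f
  have h3 := sh_mul_sub a⁻¹ b f
  rw [sh_inv_sub] at h1 h3
  linarith

theorem t_GAPF (hcon : S_CON) (hmat : S_MAT) : S_GAPF := by
  intro m i h
  obtain ⟨gC, gD, hC1, hD1, hCt, hDt, hno, hT⟩ := hmat
  obtain ⟨M₀, A, B, hA, hB, hcov, hM⟩ := hcon gC gD hC1 hD1 hCt hDt hno
  obtain ⟨hTC, hTD⟩ := hT m i h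
  obtain ⟨Q, hQ⟩ := equi ((actH (VV m)).comp (Tg i h)) (good i) (fun g W hW => by
    intro h1
    apply hW
    have h2 := Tg_fix i h _ h1 g⁻¹
    have h3 : act (Tg i h g⁻¹) (act (Tg i h g) W) = W := by
      have : act (Tg i h g⁻¹) (act (Tg i h g) W) = (actH (VV m) (Tg i h g⁻¹) * actH (VV m) (Tg i h g)) W := rfl
      rw [this, ← map_mul, ← map_mul, inv_mul_cancel, map_one, map_one]; rfl
    have h4 : act (Tg i h g) W = W := by
      rw [← h3]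
      conv_lhs => rw [h3]
      exact h2.symm
    have h5 : Stab {i, i+1} (act (Tg i h g) W) := h1
    rwa [h4] at h5) (fun W hW => exists_q i h W hW)
  -- powers
  have key : ∀ (u : VV m ≃ₗ[ℂ] VV m) (g : GL (Fin 2) ℂ), u = Tg i h g → 
      ∀ (S : Set (Fin 2 → ℂ)), (∀ x ∈ S, ∀ c : ℂ, c ≠ 0 → c • x ∈ S) → 
      (∀ n ≥ M₀, ∀ x ∈ S, ((g : Matrix (Fin 2) (Fin 2) ℂ) ^ n) *ᵥ x ∉ S) → 
      ∀ W, W ∈ good i → Q W ∈ S → ∀ n ≥ M₀, Q (((act u) ^ n) W) ∉ S := by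
    intro u g hu S hS1 hS2 W hW hWS n hn hcon
    have e1 : (act u) ^ n = ((actH (VV m)).comp (Tg i h)) (g ^ n) := by
      rw [MonoidHom.comp_apply, map_pow (Tg i h), map_pow (actH (VV m)), ← hu, actH_apply]
    obtain ⟨c, hc0, hc⟩ := (hQ W hW).2 (g ^ n)
    rw [e1, hc] at hcon
    have h1 := hS1 _ hcon c⁻¹ (inv_ne_zero hc0)
    rw [smul_smul, inv_mul_cancel₀ hc0, one_smul] at h1
    have e2 : ((g ^ n : GL (Fin 2) ℂ) : Matrix (Fin 2) (Fin 2) ℂ) = (g : Matrix (Fin 2) (Fin 2) ℂ) ^ n := rfl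
    rw [e2] at h1
    exact hS2 n hn _ hWS h1
  set u := sq (m := m) i (by omega) * sq (i+1) h * (sq i (by omega))⁻¹ * (sq (i+1) h)⁻¹ with hu
  set v := (sq (m := m) i (by omega))⁻¹ * sq (i+1) h * sq i (by omega) * (sq (i+1) h)⁻¹ with hv
  set a := act (sq (m := m) i (by omega)) with ha
  set b := act (sq (m := m) (i+1) h) with hb
  have hua : act u = a * b * a⁻¹ * b⁻¹ := by
    rw [hu, act_mul', act_mul', act_mul', act_inv', act_inv']
  have hva : act v = a⁻¹ * b * a * b⁻¹ := by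
    rw [hv, act_mul', act_mul', act_mul', act_inv', act_inv']
  set M : ℕ := M₀ + 1 with hMdef
  have hMpos : (0:ℝ) < M := by positivity
  refine ⟨1 / (400 * M), by positivity, fun f hf => ?_⟩
  by_contra hcon
  push Not at hcon
  obtain ⟨h1', h2'⟩ := hcon
  have hfu : ‖f - sh (act u) f‖ ≤ 1 / (100 * M) * ‖f‖ := by
    rw [hua]
    refine le_trans (four a b f _ h1'.le h2'.le) (le_of_eq ?_)
    field_simp; ring
  have hfv : ‖f - sh (act v) f‖ ≤ 1 / (100 * M) * ‖f‖ := by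
    rw [hva]
    refine le_trans (four' a b f _ h1'.le h2'.le) (le_of_eq ?_)
    field_simp; ring
  have hpp := pingpong (act u ^ M) (act v ^ M) 
    {W | W ∈ good i ∧ Q W ∈ A} {W | W ∈ good i ∧ Q W ∈ B} 
    (by
      rw [Set.disjoint_left]
      rintro W ⟨_, hWB⟩ ⟨W', ⟨hW'g, hW'B⟩, rfl⟩
      exact key u gC hTC B hB (fun n hn => (hM n hn).1) W' hW'g hW'B M (by omega) hWB)
    (by
      rw [Set.disjoint_left]
      rintro W ⟨_, hWB⟩ ⟨_, ⟨W', ⟨hW'g, hW'B⟩, rfl⟩, rfl⟩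
      refine key u gC hTC B hB (fun n hn => (hM n hn).1) W' hW'g hW'B (M + M) (by omega) ?_
      rw [pow_add]; exact hWB)
    (by
      rw [Set.disjoint_left]
      rintro W ⟨_, hWB⟩ ⟨W', ⟨hW'g, hW'B⟩, rfl⟩
      exact key v gD hTD A hA (fun n hn => (hM n hn).2) W' hW'g hW'B M (by omega) hWB)
    (by
      rw [Set.disjoint_left]
      rintro W ⟨_, hWB⟩ ⟨_, ⟨W', ⟨hW'g, hW'B⟩, rfl⟩, rfl⟩
      refine key v gD hTD A hA (fun n hn => (hM n hn).2) W' hW'g hW'B (M + M) (by omega) ?_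
      rw [pow_add]; exact hWB)
    f (fun W hW => by
      have hg : W ∈ good i := by
        by_contra hg
        exact hW (hf W hg)
      rcases hcov (Q W) (hQ W hg).1 with h1 | h1
      · exact Or.inl ⟨hg, h1⟩
      · exact Or.inr ⟨hg, h1⟩) (3 / 100 * ‖f‖)
    (by
      refine le_trans (sh_pow_sub _ f M) ?_
      have : (M:ℝ) * ‖f - sh (act u) f‖ ≤ (M:ℝ) * (1 / (100 * M) * ‖f‖) := 
        mul_le_mul_of_nonneg_left hfu (by positivity)
      have e3 : (M:ℝ) * (1 / (100 * M) * ‖f‖) = 1 / 100 * ‖f‖ := by field_simp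
      have := norm_nonneg f
      linarith)
    (by
      refine le_trans (sh_pow_sub _ f M) ?_
      have : (M:ℝ) * ‖f - sh (act v) f‖ ≤ (M:ℝ) * (1 / (100 * M) * ‖f‖) := 
        mul_le_mul_of_nonneg_left hfv (by positivity)
      have e3 : (M:ℝ) * (1 / (100 * M) * ‖f‖) = 1 / 100 * ‖f‖ := by field_simp
      have := norm_nonneg f
      linarith)
  have h0 : ‖f‖ = 0 := by
    have := norm_nonneg f
    linarith
  rw [h0, mul_zero] at h1'
  exact absurd h1' (not_lt.2 (norm_nonneg _))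

end Pool.Agent.J4H23.QT
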