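import Pool.Agent.J4H23.QT.Stm

set_option autoImplicit false

namespace Pool.Agent.J4H23.QT

open Finset Matrix Pool.Agent.H891R2.Jones Pool.Agent.W639.RB Pool.Agent.W705.JR

noncomputable def al : ℂ := A3 ^ 2
noncomputable def be : ℂ := (A3⁻¹) ^ 2

theorem al_be : al * be = 1 := A3_mul

theorem al_add : al + be = -3 := by
  have := A3_d
  unfold al be
  linear_combination this

/-- `κ` -/
noncomputable def ka : ℂ := -7 * be - 3
noncomputable def kb : ℂ := -7 * al - 3

theorem ka_add : ka + kb = 15 := by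
  unfold ka kb; linear_combination (-7) * al_add

theorem ka_mul : ka * kb = -5 := by
  unfold ka kb; linear_combination 49 * al_be + 21 * al_add

def mE : Matrix (Fin 2) (Fin 2) ℂ := !![3, 1; 0, 0]
def mF : Matrix (Fin 2) (Fin 2) ℂ := !![0, 0; 1, 3]

/-- `1 + k E` -/
noncomputable def uE (k : ℂ) : Matrix (Fin 2) (Fin 2) ℂ := !![1 + 3 * k, k; 0, 1]
noncomputable def uF (k : ℂ) : Matrix (Fin 2) (Fin 2) ℂ := !![1, 0; k, 1 + 3 * k]

theorem uE_det (k : ℂ) : (uE k).det = 1 + 3 * k := by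
  unfold uE; rw [Matrix.det_fin_two]; simp

theorem uF_det (k : ℂ) : (uF k).det = 1 + 3 * k := by
  unfold uF; rw [Matrix.det_fin_two]; simp

theorem th_uE {R : Type*} [Ring R] [Algebra ℂ R] (a b : R) (k : ℂ) : th a b (uE k) = 1 + k • a := by
  unfold th uE
  rw [io_apply]
  simp only [Matrix.sub_apply, Matrix.of_apply, Matrix.cons_val', Matrix.cons_val_zero, 
    Matrix.cons_val_one, Matrix.cons_val_fin_one, Matrix.one_apply_eq, 
    Matrix.one_apply_ne (zero_ne_one), Matrix.one_apply_ne (one_ne_zero)]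
  match_scalars <;> ring

theorem th_uF {R : Type*} [Ring R] [Algebra ℂ R] (a b : R) (k : ℂ) : th a b (uF k) = 1 + k • b := by
  unfold th uF
  rw [io_apply]
  simp only [Matrix.sub_apply, Matrix.of_apply, Matrix.cons_val', Matrix.cons_val_zero, 
    Matrix.cons_val_one, Matrix.cons_val_fin_one, Matrix.one_apply_eq, 
    Matrix.one_apply_ne (zero_ne_one), Matrix.one_apply_ne (one_ne_zero)]
  match_scalars <;> ring

/-- the two commutators -/
noncomputable def MC : Matrix (Fin 2) (Fin 2) ℂ := uE ka * uF ka * uE kb * uF kb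
noncomputable def MD : Matrix (Fin 2) (Fin 2) ℂ := uE kb * uF ka * uE ka * uF kb

theorem det_k : (1 + 3 * ka) * (1 + 3 * kb) = 1 := by
  linear_combination 3 * ka_add + 9 * ka_mul

theorem MC_det : MC.det = 1 := by
  unfold MC
  rw [Matrix.det_mul, Matrix.det_mul, Matrix.det_mul, uE_det, uF_det, uE_det, uF_det]
  linear_combination ((1 + 3 * ka) * (1 + 3 * kb) + 1) * det_k

theorem MD_det : MD.det = 1 := by
  unfold MD
  rw [Matrix.det_mul, Matrix.det_mul, Matrix.det_mul, uE_det, uF_det, uE_det, uF_det]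
  linear_combination ((1 + 3 * ka) * (1 + 3 * kb) + 1) * det_k

/-- entries -/
theorem MC_eq : MC = !![MC 0 0, MC 0 1; MC 1 0, MC 1 1] := by
  ext i j; fin_cases i <;> fin_cases j <;> rfl

theorem MC_tr : MC.trace = -198 := by
  rw [Matrix.trace_fin_two]
  unfold MC uE uF
  simp only [Matrix.mul_apply, Fin.sum_univ_two, Matrix.of_apply, Matrix.cons_val', Matrix.cons_val_zero, 
    Matrix.cons_val_one, Matrix.cons_val_fin_one]
  have h1 := ka_add
  have h2 := ka_mul
  have h3 : kb = 15 - ka := by linear_combination h1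
  have h4 : ka * (15 - ka) = -5 := by rw [← h3]; exact h2
  rw [h3]
  have h5 : ka ^ 2 = 15 * ka + 5 := by linear_combination -h4
  have h6 : ka ^ 3 = 230 * ka + 75 := by linear_combination (ka + 15) * h5
  have h7 : ka ^ 4 = 3525 * ka + 1150 := by linear_combination ka * h6 + 230 * h5
  ring_nf
  rw [h7, h6, h5]
  ring

theorem MD_tr : MD.trace = -198 := by
  rw [Matrix.trace_fin_two]
  unfold MD uE uF
  simp only [Matrix.mul_apply, Fin.sum_univ_two, Matrix.of_apply, Matrix.cons_val', Matrix.cons_val_zero, 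
    Matrix.cons_val_one, Matrix.cons_val_fin_one]
  have h1 := ka_add
  have h2 := ka_mul
  have h3 : kb = 15 - ka := by linear_combination h1
  have h4 : ka * (15 - ka) = -5 := by rw [← h3]; exact h2
  rw [h3]
  have h5 : ka ^ 2 = 15 * ka + 5 := by linear_combination -h4
  have h6 : ka ^ 3 = 230 * ka + 75 := by linear_combination (ka + 15) * h5
  have h7 : ka ^ 4 = 3525 * ka + 1150 := by linear_combination ka * h6 + 230 * h5
  ring_nf
  rw [h7, h6, h5]
  ring

theorem k2 : ka ^ 2 = 15 * ka + 5 := by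
  have h3 : kb = 15 - ka := by linear_combination ka_add
  have h4 : ka * (15 - ka) = -5 := by rw [← h3]; exact ka_mul
  linear_combination -h4

theorem k3 : ka ^ 3 = 230 * ka + 75 := by linear_combination (ka + 15) * k2

theorem k4 : ka ^ 4 = 3525 * ka + 1150 := by linear_combination ka * k3 + 230 * k2

theorem MC_exp : MC = !![31 - 15 * ka, 90 - 5 * ka; -90 + 5 * ka, -229 + 15 * ka] := by
  have h3 : kb = 15 - ka := by linear_combination ka_add
  unfold MC uE uF
  ext i j
  fin_cases i <;> fin_cases j <;>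
  · simp only [Matrix.mul_apply, Fin.sum_univ_two, Matrix.of_apply, Matrix.cons_val', Matrix.cons_val_zero, 
      Matrix.cons_val_one, Matrix.cons_val_fin_one, Fin.zero_eta, Fin.mk_one, Fin.isValue]
    rw [h3]
    ring_nf
    simp only [k4, k3, k2]
    ring

theorem MD_exp : MD = !![-204, -615 + 40 * ka; 15 + 40 * ka, 6] := by
  have h3 : kb = 15 - ka := by linear_combination ka_add
  unfold MD uE uF
  ext i j
  fin_cases i <;> fin_cases j <;>
  · simp only [Matrix.mul_apply, Fin.sum_univ_two, Matrix.of_apply, Matrix.cons_val', Matrix.cons_val_zero, 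
      Matrix.cons_val_one, Matrix.cons_val_fin_one, Fin.zero_eta, Fin.mk_one, Fin.isValue]
    rw [h3]
    ring_nf
    simp only [k4, k3, k2]
    ring

theorem comm_det : (MC * MD - MD * MC).det = -480200000 := by
  rw [MC_exp, MD_exp, Matrix.det_fin_two]
  simp only [Matrix.sub_apply, Matrix.mul_apply, Fin.sum_univ_two, Matrix.of_apply, Matrix.cons_val', 
    Matrix.cons_val_zero, Matrix.cons_val_one, Matrix.cons_val_fin_one]
  ring_nf
  simp only [k4, k3, k2]
  ring

theorem no_com : ¬ ∃ x : Fin 2 → ℂ, x ≠ 0 ∧ (∃ c : ℂ, MC *ᵥ x = c • x) ∧ ∃ c : ℂ, MD *ᵥ x = c • x := by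
  rintro ⟨x, hx, ⟨c, hc⟩, d, hd⟩
  have h1 : (MC * MD - MD * MC) *ᵥ x = 0 := by
    rw [Matrix.sub_mulVec, ← Matrix.mulVec_mulVec, ← Matrix.mulVec_mulVec, hc, hd, Matrix.mulVec_smul, 
      Matrix.mulVec_smul, hc, hd, smul_smul, smul_smul, mul_comm, sub_self]
  have h2 : (MC * MD - MD * MC).det = 0 := Matrix.exists_mulVec_eq_zero_iff.1 ⟨x, hx, h1⟩
  rw [comm_det] at h2
  norm_num at h2

noncomputable def gC : GL (Fin 2) ℂ := Matrix.GeneralLinearGroup.mkOfDetNeZero MC (by rw [MC_det]; exact one_ne_zero)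
noncomputable def gD : GL (Fin 2) ℂ := Matrix.GeneralLinearGroup.mkOfDetNeZero MD (by rw [MD_det]; exact one_ne_zero)

variable {m : ℕ}

/-- the square on the first part -/
theorem sq_fst (i : ℕ) (h : i + 1 < m) (v : VV m) : 
    (sq i h v).1 = al • (v.1 + ka • e m i v.1) := by
  have e1 : (sq i h v).1 = (sg A3 (e m) i * sg A3 (e m) i) v.1 := rfl
  have e2 : sg A3 (e m) i * sg A3 (e m) i = al • (1 + ka • e m i) := by
    have h1 : e m i * e m i = (3:ℂ) • e m i := by have := (e_TL m).sq i h; exact_mod_cast this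
    have hA := A3_ne
    simp only [sg, add_mul, mul_add, smul_mul_assoc, mul_smul_comm, one_mul, mul_one, smul_smul, h1, smul_add]
    have h2 : al * ka = 2 + 3 * be := by unfold ka; linear_combination (-7) * al_be - 3 * al_add
    rw [h2]
    unfold al be
    match_scalars <;> field_simp
    ring
  rw [e1, e2]
  rfl

/-- the square on the second part -/
theorem sq_snd (i : ℕ) (h : i + 1 < m) (v : VV m) (U : Fin m → Bool) : 
    (sq i h v).2 U = qq ^ (2 * cst2 (lt i h true) U) * v.2 U := by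
  have e1 : (sq i h v).2 U = m2 (lt i h true) (m2 (lt i h true) v.2) U := rfl
  rw [e1, m2_apply, m2_apply, sw_sw, cst2_sw, ← mul_assoc, ← zpow_add₀ qq_ne]
  have hs : sgn (W705.JR.lt i h true).1 = 1 := rfl
  rw [hs]
  congr 2
  ring

theorem uE_inv : uE kb * uE ka = 1 := by
  unfold uE
  ext i j
  have h := det_k
  fin_cases i <;> fin_cases j
  · simp [Matrix.mul_apply, Fin.sum_univ_two]
    linear_combination h
  · simp [Matrix.mul_apply, Fin.sum_univ_two]
    linear_combination ka_add + 3 * ka_mul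
  · simp [Matrix.mul_apply, Fin.sum_univ_two]
  · simp [Matrix.mul_apply, Fin.sum_univ_two]

theorem uE_inv' : uE ka * uE kb = 1 := by
  unfold uE
  ext i j
  have h := det_k
  fin_cases i <;> fin_cases j
  · simp [Matrix.mul_apply, Fin.sum_univ_two]
    linear_combination h
  · simp [Matrix.mul_apply, Fin.sum_univ_two]
    linear_combination ka_add + 3 * ka_mul
  · simp [Matrix.mul_apply, Fin.sum_univ_two]
  · simp [Matrix.mul_apply, Fin.sum_univ_two]

theorem uF_inv : uF kb * uF ka = 1 := by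
  unfold uF
  ext i j
  have h := det_k
  fin_cases i <;> fin_cases j
  · simp [Matrix.mul_apply, Fin.sum_univ_two]
  · simp [Matrix.mul_apply, Fin.sum_univ_two]
  · simp [Matrix.mul_apply, Fin.sum_univ_two]
    linear_combination ka_add + 3 * ka_mul
  · simp [Matrix.mul_apply, Fin.sum_univ_two]
    linear_combination h

theorem mat_C : MC * (uF ka * uE ka) = uE ka * uF ka := by
  unfold MC
  calc uE ka * uF ka * uE kb * uF kb * (uF ka * uE ka) = uE ka * uF ka * uE kb * (uF kb * uF ka) * uE ka := by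
        noncomm_ring
    _ = uE ka * uF ka * (uE kb * uE ka) := by rw [uF_inv]; noncomm_ring
    _ = _ := by rw [uE_inv]; noncomm_ring

theorem mat_D : uE ka * (MD * uF ka) = uF ka * uE ka := by
  unfold MD
  calc uE ka * (uE kb * uF ka * uE ka * uF kb * uF ka) = (uE ka * uE kb) * (uF ka * uE ka * (uF kb * uF ka)) := by
        noncomm_ring
    _ = _ := by rw [uF_inv, uE_inv']; noncomm_ring

theorem sq_fst1 (i : ℕ) (h : i + 2 < m) (v : VV m) : 
    (sq i (by omega) v).1 = al • (th (e m i) (e m (i+1)) (uE ka) v.1) := by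
  rw [sq_fst, th_uE]
  rfl

theorem sq_fst2 (i : ℕ) (h : i + 2 < m) (v : VV m) : 
    (sq (i+1) h v).1 = al • (th (e m i) (e m (i+1)) (uF ka) v.1) := by
  rw [sq_fst, th_uF]
  rfl

theorem Tg_fst (i : ℕ) (h : i + 2 < m) (g : GL (Fin 2) ℂ) (v : VV m) : 
    (Tg i h g v).1 = th (e m i) (e m (i+1)) (g : Matrix (Fin 2) (Fin 2) ℂ) v.1 := rfl

theorem Tg_snd (i : ℕ) (h : i + 2 < m) (g : GL (Fin 2) ℂ) (v : VV m) : (Tg i h g v).2 = v.2 := rfl

theorem gC_coe : (gC : Matrix (Fin 2) (Fin 2) ℂ) = MC := rfl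

theorem gD_coe : (gD : Matrix (Fin 2) (Fin 2) ℂ) = MD := rfl

theorem eqC1 (i : ℕ) (h : i + 2 < m) (v : VV m) : 
    (sq i (by omega) (sq (i+1) h v)).1 = (Tg i h gC (sq (i+1) h (sq i (by omega) v))).1 := by
  rw [Tg_fst, gC_coe, sq_fst1 i h, sq_fst2 i h, sq_fst2 i h, sq_fst1 i h, map_smul, map_smul, map_smul]
  have e4 : th (e m i) (e m (i+1)) (uE ka) * th (e m i) (e m (i+1)) (uF ka) = 
      th (e m i) (e m (i+1)) MC * (th (e m i) (e m (i+1)) (uF ka) * th (e m i) (e m (i+1)) (uE ka)) := by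
    rw [← th_mul (e_TL2 i h), ← th_mul (e_TL2 i h), ← th_mul (e_TL2 i h), mat_C]
  have e5 : th (e m i) (e m (i+1)) (uE ka) (th (e m i) (e m (i+1)) (uF ka) v.1) = 
      th (e m i) (e m (i+1)) MC (th (e m i) (e m (i+1)) (uF ka) (th (e m i) (e m (i+1)) (uE ka) v.1)) := 
    LinearMap.congr_fun e4 v.1
  rw [e5, map_smul]

theorem eqC2 (i : ℕ) (h : i + 2 < m) (v : VV m) : 
    (sq i (by omega) (sq (i+1) h v)).2 = (Tg i h gC (sq (i+1) h (sq i (by omega) v))).2 := by
  funext U
  rw [Tg_snd, sq_snd, sq_snd, sq_snd, sq_snd]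
  ring

theorem eqD1 (i : ℕ) (h : i + 2 < m) (v : VV m) : 
    (sq (i+1) h (sq i (by omega) v)).1 = (sq i (by omega) (Tg i h gD (sq (i+1) h v))).1 := by
  rw [sq_fst1 i h, Tg_fst, gD_coe, sq_fst2 i h, sq_fst2 i h, sq_fst1 i h, map_smul, map_smul, map_smul]
  have e4 : th (e m i) (e m (i+1)) (uF ka) * th (e m i) (e m (i+1)) (uE ka) = 
      th (e m i) (e m (i+1)) (uE ka) * (th (e m i) (e m (i+1)) MD * th (e m i) (e m (i+1)) (uF ka)) := by
    rw [← th_mul (e_TL2 i h), ← th_mul (e_TL2 i h), ← th_mul (e_TL2 i h), mat_D]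
  have e5 : th (e m i) (e m (i+1)) (uF ka) (th (e m i) (e m (i+1)) (uE ka) v.1) = 
      th (e m i) (e m (i+1)) (uE ka) (th (e m i) (e m (i+1)) MD (th (e m i) (e m (i+1)) (uF ka) v.1)) := 
    LinearMap.congr_fun e4 v.1
  rw [e5]

theorem eqD2 (i : ℕ) (h : i + 2 < m) (v : VV m) : 
    (sq (i+1) h (sq i (by omega) v)).2 = (sq i (by omega) (Tg i h gD (sq (i+1) h v))).2 := by
  funext U
  rw [sq_snd (i+1), sq_snd i, sq_snd i, Tg_snd, sq_snd (i+1)]
  ring

theorem eqC (i : ℕ) (h : i + 2 < m) : sq i (by omega) * sq (i+1) h = Tg i h gC * (sq (i+1) h * sq i (by omega)) := 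
  LinearEquiv.ext fun v => Prod.ext (eqC1 i h v) (eqC2 i h v)

theorem eqD (i : ℕ) (h : i + 2 < m) : sq (i+1) h * sq i (by omega) = sq i (by omega) * (Tg i h gD * sq (i+1) h) := 
  LinearEquiv.ext fun v => Prod.ext (eqD1 i h v) (eqD2 i h v)

theorem t_MAT : S_MAT := by
  refine ⟨gC, gD, MC_det, MD_det, MC_tr, MD_tr, no_com, fun m i h => ⟨?_, ?_⟩⟩
  · have := eqC i h
    rw [mul_inv_eq_iff_eq_mul, mul_inv_eq_iff_eq_mul, this, mul_assoc]
  · have := eqD i h
    rw [mul_inv_eq_iff_eq_mul, mul_assoc, inv_mul_eq_iff_eq_mul, this]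

end Pool.Agent.J4H23.QT
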