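import Pool.Agent.W705.JR.Main

/-!
# Project QT: crossing-change noise in braid words (MP_5f6b43_gt)

Non-stationary version of `Pool.Agent.W705.JR` (random braid words): the gaps `c_1 ... c_n` of the braid word
are arbitrary (given), only the signs are random, each with its own probability.
-/

set_option autoImplicit false

namespace Pool.Agent.J4H23.QT

open Filter Topology Finset Matrix Pool.Agent.H891R2.Jones Pool.Agent.W639.RB Pool.Agent.W705.JR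

/-- probability vectors -/
def IsP {ι : Type} [Fintype ι] (p : ι → ℝ) : Prop := (∀ l, 0 ≤ p l) ∧ ∑ l, p l = 1

/-- product of averaging operators; the head of the list is applied last -/
noncomputable def opr {X ι : Type} [Fintype ι] (σ : ι → Equiv.Perm X) : List (ι → ℝ) → L2 X → L2 X
  | [], f => f
  | (p :: P), f => avg p σ (opr σ P f)

open Classical in
/-- the list version of `hit` -/
noncomputable def hitL {V ι : Type} [AddCommGroup V] [Module ℂ V] [Fintype ι] (g : ι → V ≃ₗ[ℂ] V) (ξ : V) :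
    List (ι → ℝ) → Submodule ℂ V → ℝ
  | [], W => if ξ ∈ W then 1 else 0
  | (p :: P), W => ∑ l, p l * hitL g ξ P ((act (g l))⁻¹ W)

/-- the list consists of single steps and of `k` blocks from `B` -/
inductive Sc {ι : Type} [Fintype ι] (B : Set (List (ι → ℝ))) : ℕ → List (ι → ℝ) → Prop
  | nil : Sc B 0 []
  | step {k : ℕ} {P : List (ι → ℝ)} (p : ι → ℝ) (hp : IsP p) (h : Sc B k P) : Sc B k (p :: P)
  | block {k : ℕ} {P : List (ι → ℝ)} (b : List (ι → ℝ)) (hb : b ∈ B) (h : Sc B k P) : Sc B (k+1) (b ++ P)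

/-- the letter `σ_j` with probability `t`, the letter `σ_j⁻¹` with probability `1 - t` -/
noncomputable def lp {m : ℕ} (j : Fin (m-1)) (t : ℝ) : Letter m → ℝ :=
  fun l => if l.2 = j then (if l.1 then t else 1 - t) else 0

/-- the blocks of length `L`: every gap occurs, all sign probabilities in `[ε, 1-ε]` -/
def Bl (m L : ℕ) (ε : ℝ) : Set (List (Letter m → ℝ)) :=
  {b | ∃ q : List (Fin (m-1) × ℝ), b = q.map (fun x => lp x.1 x.2) ∧ q.length = L ∧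
    (∀ x ∈ q, ε ≤ x.2 ∧ x.2 ≤ 1 - ε) ∧ ∀ j : Fin (m-1), j ∈ q.map Prod.fst}

/-- `σ_i²` -/
noncomputable def sq {m : ℕ} (i : ℕ) (h : i + 1 < m) : VV m ≃ₗ[ℂ] VV m := gg (lt i h true) * gg (lt i h true)

/-- `σ_a` as a permutation of the subspaces -/
noncomputable def xx {m : ℕ} (a : Fin (m-1)) : Equiv.Perm (Submodule ℂ (VV m)) := act (gg (true, a))

/-- product of the `σ_a` -/
noncomputable def wd {m : ℕ} (c : List (Fin (m-1))) : Equiv.Perm (Submodule ℂ (VV m)) := (c.map xx).prod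

/-- (CON) `cones` (W705/JR/T3.lean) with the trace `-198` instead of `-6`.  Proof: copy T3.lean; the
eigenvalues are `-99 ± 70 √2` instead of `-3 ± 2 √2` (`l² + 198 l + 1 = 0`, `|l| ≥ 5`, `|l'| ≤ 1`). -/
def S_CON : Prop := ∀ (U V : Matrix (Fin 2) (Fin 2) ℂ), U.det = 1 → V.det = 1 →
    U.trace = -198 → V.trace = -198 →
    (¬ ∃ x : Fin 2 → ℂ, x ≠ 0 ∧ (∃ c : ℂ, U *ᵥ x = c • x) ∧ ∃ c : ℂ, V *ᵥ x = c • x) →
    ∃ (M₀ : ℕ) (A B : Set (Fin 2 → ℂ)),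
      (∀ x ∈ A, ∀ c : ℂ, c ≠ 0 → c • x ∈ A) ∧ (∀ x ∈ B, ∀ c : ℂ, c ≠ 0 → c • x ∈ B) ∧
      (∀ x, x ≠ 0 → x ∈ A ∨ x ∈ B) ∧
      ∀ M ≥ M₀, (∀ x ∈ B, (U ^ M) *ᵥ x ∉ B) ∧ (∀ x ∈ A, (V ^ M) *ᵥ x ∉ A)

/-- (MAT) the commutators of the squares of two neighbouring letters come from `GL_2`.
Proof: put `α = A3^2`, `β = (A3⁻¹)^2`, `α β = 1`, `α + β = -3` (A3_d).  On `V1` the square of the letter is
`(A3 + A3⁻¹ e)^2 = α + (2 + 3 β) e`  (`e² = 3 e`), `= α (1 + κ e)` with `κ = β (2 + 3 β) = -7 β - 3`; its inverse is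
`β (1 + κ' e)`, `κ' = -7 α - 3` (`κ + κ' = 15`, `κ κ' = -5`, so `κ + κ' + 3 κ κ' = 0`).  In the commutator the
scalars cancel.  `e_i ↔ E = !![3,1;0,0]`, `e_{i+1} ↔ F = !![0,0;1,3]` (`io e_i e_{i+1} E = e_i`,
`io .. F = e_{i+1}`, `io_mul`, `th_mul`), so
`gC = (1+κE)(1+κF)(1+κ'E)(1+κ'F)`, `gD = (1+κ'E)(1+κF)(1+κE)(1+κ'F)`; both have determinant 1 (det (1+κE) = 1+3κ,
det(1+κ'E) = 1+3κ', product 1) and trace -198, and `det (gC gD - gD gC) = -480200000 ≠ 0`, so no common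
eigenvector.  (One may also take the explicit matrices: with `β`, `α = -3-β`, `β² = -3β-1`.)
On `V2` the square of a letter is multiplication by `qq ^ (2 cst2 x U)` (cst2_sw, sw_sw), so the squares
commute on `V2` and the commutators act trivially there (`TH = prodMap (th ..) 1`, Tg_apply). -/
def S_MAT : Prop := ∃ gC gD : GL (Fin 2) ℂ,
    (gC : Matrix (Fin 2) (Fin 2) ℂ).det = 1 ∧ (gD : Matrix (Fin 2) (Fin 2) ℂ).det = 1 ∧
    (gC : Matrix (Fin 2) (Fin 2) ℂ).trace = -198 ∧ (gD : Matrix (Fin 2) (Fin 2) ℂ).trace = -198 ∧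
    (¬ ∃ x : Fin 2 → ℂ, x ≠ 0 ∧ (∃ c : ℂ, (gC : Matrix (Fin 2) (Fin 2) ℂ) *ᵥ x = c • x) ∧
      ∃ c : ℂ, (gD : Matrix (Fin 2) (Fin 2) ℂ) *ᵥ x = c • x) ∧
    ∀ (m i : ℕ) (h : i + 2 < m),
      sq i (by omega) * sq (i+1) h * (sq i (by omega))⁻¹ * (sq (i+1) h)⁻¹ = Tg i h gC ∧
      (sq i (by omega))⁻¹ * sq (i+1) h * sq i (by omega) * (sq (i+1) h)⁻¹ = Tg i h gD

/-- (GAPF) Proof: copy `gap_i` (W705/JR/Gap.lean, at the end) with `uu, vv` (there `uu ^ 3 = Tg ..`) replaced by the two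
commutators `u = sq i * sq (i+1) * (sq i)⁻¹ * (sq (i+1))⁻¹`, `v = (sq i)⁻¹ * sq (i+1) * sq i * (sq (i+1))⁻¹` of S_MAT
(now `u = Tg i h gC`, no cube, so `act u ^ n = (actH.comp Tg) (gC ^ n)`), and cones by S_CON:
there is `c' > 0` with `c' ‖f‖ ≤ ‖f - sh (act u) f‖` or `c' ‖f‖ ≤ ‖f - sh (act v) f‖`.  If `f` is `δ`-invariant under
`act (sq i)` and `act (sq (i+1))` then it is `4 δ`-invariant under both commutators; `c = c' / 4`. -/
def S_GAPF : Prop := ∀ (m i : ℕ) (h : i + 2 < m), ∃ c : ℝ, 0 < c ∧ ∀ f : L2 (Submodule ℂ (VV m)),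
    (∀ W, W ∉ good i → f W = 0) →
      c * ‖f‖ ≤ ‖f - sh (act (sq i (by omega))) f‖ ∨ c * ‖f‖ ≤ ‖f - sh (act (sq (i+1) h)) f‖

/-- (SEQ) Proof: induction on `c` (generalise `T`).  `c = a :: c'`, `T n = t n :: T' n`,
`H n = opr (zipWith lp c' (T' n)) (F n)`, `A h = t sh(xx a) h + (1-t) sh((xx a)⁻¹) h` (the letter `(false, a) = inv' (true, a)`,
gg_inv', act_symm), `‖A h‖ ≤ ‖h‖ ≤ 1`, so `‖H n‖ → 1`; avg_norm:
`‖A h‖² = ‖h‖² - t (1-t) ‖sh(xx a) h - sh((xx a)⁻¹) h‖² = ‖h‖² - t(1-t) ‖h - sh(xx a * xx a) h‖²`, `t (1-t) ≥ ε²`, so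
`‖H n - sh (xx a * xx a) (H n)‖ → 0`; by induction `‖H n - sh (wd c') (F n)‖ → 0`, so the same for `sh (wd c') (F n)`,
i.e. the second claim for `c1 = []`; and `‖A h - sh (xx a) h‖ = (1-t) ‖sh((xx a)⁻¹) h - sh(xx a) h‖ → 0`. -/
def S_SEQ : Prop := ∀ (m : ℕ) (ε : ℝ), 0 < ε → ∀ (c : List (Fin (m-1))) (T : ℕ → List ℝ)
    (F : ℕ → L2 (Submodule ℂ (VV m))), (∀ n, (T n).length = c.length) →
    (∀ n, ∀ t ∈ T n, ε ≤ t ∧ t ≤ 1 - ε) → (∀ n, ‖F n‖ = 1) →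
    Tendsto (fun n => ‖opr (fun l : Letter m => act (gg l)) (List.zipWith lp c (T n)) (F n)‖) atTop (𝓝 1) →
    Tendsto (fun n => ‖opr (fun l : Letter m => act (gg l)) (List.zipWith lp c (T n)) (F n) - sh (wd c) (F n)‖)
      atTop (𝓝 0) ∧
    ∀ (c1 c2 : List (Fin (m-1))) (a : Fin (m-1)), c = c1 ++ a :: c2 →
      Tendsto (fun n => ‖F n - sh ((wd c2)⁻¹ * (xx a * xx a) * wd c2) (F n)‖) atTop (𝓝 0)

/-- (CMB) purely combinatorial.  Proof: induction on `c` (`c = a :: c'`).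
First, transport: if `b ∈ J` or all `j ∈ J` have `|j - b| ≥ 2`, then `Stab J (xx b W) ↔ Stab J W`
(`Stab_act_iff` for `b ∈ J`; for far `b` the generators commute, so `gg x (EE2 j v) = EE2 j (gg x v)`), and `xx b`, `xx b'`
commute if `|b - b'| ≥ 2`.  `W ∈ good i ↔ ¬ Stab {i, i+1} W`.
Step: all pairs `{j, j+1} ⊆ c'` are fine at `wd c'` (induction).  (1) If `a ∉ c'` and `b ∈ {a-1, a+1}` is in `c'`: write
`c' = y ++ b :: c''`, `b ∉ y`; `y1 = y.filter` (letters on the side of `b`, seen from `a`), `y2` = the others (on the other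
side of `a`); `wd y = wd y1 * wd y2`; put `g = wd y2 * xx b * wd c'' = (wd y1)⁻¹ * wd c'`.  Then
`g⁻¹ xx_b² g = (wd c'')⁻¹ xx_b² (wd c'')` and `g⁻¹ xx_a² g = (wd c')⁻¹ xx_a² (wd c')` are in `Γ`, so by hgap
`{W | ¬ Stab {a,b} (g W)} ∈ I`.  For `W` outside of this set and outside of the sets of the pairs of `c'`: let `J` be `a` together
with the maximal interval of letters of `c'` that starts at `b` away from `a`; all letters of `y1` are in `J` or at distance `≥ 2` from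
`J`; `Stab (J \ {a}) (wd c' W)` if `J \ {a}` has at least 2 elements, so `Stab (J \ {a}) (g W)`, so `Stab J (g W)`, so
`Stab J (wd c' W)`: the pair `{a, b}` is fine at `wd c'`.  (2) So all pairs in `a :: c'` are fine at `wd c'`; for a pair `{j, j+1}`
apply transport with `xx a` to `{j, j+1} ∪ {a}` (if `a` is at distance 1; then all pairs of it are fine) or to `{j, j+1}`. -/
def S_CMB : Prop := ∀ (m : ℕ) (Γ : Set (Equiv.Perm (Submodule ℂ (VV m)))) (I : Set (Set (Submodule ℂ (VV m)))),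
    ∅ ∈ I → (∀ S ∈ I, ∀ T ⊆ S, T ∈ I) → (∀ S ∈ I, ∀ T ∈ I, S ∪ T ∈ I) →
    (∀ (i : ℕ) (h : i + 2 < m) (g : Equiv.Perm (Submodule ℂ (VV m))),
      g⁻¹ * (xx (m := m) ⟨i, by omega⟩ * xx ⟨i, by omega⟩) * g ∈ Γ →
      g⁻¹ * (xx (m := m) ⟨i+1, by omega⟩ * xx ⟨i+1, by omega⟩) * g ∈ Γ → {W | g W ∈ good i} ∈ I) →
    ∀ c : List (Fin (m-1)), (∀ (c1 c2 : List (Fin (m-1))) (a : Fin (m-1)), c = c1 ++ a :: c2 →
      (wd c2)⁻¹ * (xx a * xx a) * wd c2 ∈ Γ) →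
    ∀ (i : ℕ) (h : i + 2 < m), (⟨i, by omega⟩ : Fin (m-1)) ∈ c → (⟨i+1, by omega⟩ : Fin (m-1)) ∈ c →
      {W | (wd c : Equiv.Perm (Submodule ℂ (VV m))) W ∈ good i} ∈ I

/-- (PAT) the gap for one pattern.  Proof: by contradiction sequences `T n`, `F n` with norm 1 and the norm of the
product at least `1 - 1/(n+1)`; S_SEQ; `Γ` = the permutations `σ` with `‖F n - sh σ (F n)‖ → 0`, `I` = the sets `S` with
`‖res S (F n)‖ → 0`; hgap from S_GAPF applied to `res (good i) (sh g (F n))` (`res_inv`, good_act); S_CMB; every `W` with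
`¬ Stab univ W` has `wd c W ∈ good i` for some `i`; contradiction with norm 1. -/
def S_PAT : Prop := ∀ (m : ℕ) (ε : ℝ), 3 ≤ m → 0 < ε → ∀ c : List (Fin (m-1)), (∀ j, j ∈ c) →
    ∃ ρ : ℝ, 0 ≤ ρ ∧ ρ < 1 ∧ ∀ (T : List ℝ), T.length = c.length → (∀ t ∈ T, ε ≤ t ∧ t ≤ 1 - ε) →
      ∀ f : L2 (Submodule ℂ (VV m)), (∀ W, Stab Set.univ W → f W = 0) →
        ‖opr (fun l : Letter m => act (gg l)) (List.zipWith lp c T) f‖ ≤ ρ * ‖f‖

/-- (BLK) from (PAT): finitely many patterns of length `L` (`List.finite_length_eq`), take the maximum. -/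
def S_BLK : Prop := ∀ (m L : ℕ) (ε : ℝ), 3 ≤ m → 0 < ε → ∃ ρ : ℝ, 0 ≤ ρ ∧ ρ < 1 ∧
    ∀ b ∈ Bl m L ε, ∀ f : L2 (Submodule ℂ (VV m)), (∀ W, Stab Set.univ W → f W = 0) →
      ‖opr (fun l : Letter m => act (gg l)) b f‖ ≤ ρ * ‖f‖

/-- (DEC) the non-stationary version of `hit_decay` (W705/JR/Ind.lean).  Proof: copy bonferroni, core, hit_decay
with `hit p g ξ k` replaced by `hitL g ξ P` and the iterates of `avg` by `opr`.  `Sc B (a+b) P` splits as `P = P1 ++ P2`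
with `Sc B a P1`, `Sc B b P2`, and `Sc B (k+1) P → Sc B k P` (hB).  core: `φ = hitL g ξ P2` on the finite set of the `W ∈ 𝒲`
of dimension `d+1` with `hitL g ξ P2 W > τ`; `‖opr P1 φ‖ ≤ ρ^a √2` if `Sc B a P1` (single steps do not increase the norm and
keep the support in `N`), `hitL (P1 ++ P2) W ≤ τ + opr P1 φ W`. -/
def S_DEC : Prop := ∀ (V ι : Type) [AddCommGroup V] [Module ℂ V] [FiniteDimensional ℂ V] [Fintype ι]
    (g : ι → V ≃ₗ[ℂ] V) (ξ : V) (B : Set (List (ι → ℝ))), (∀ b ∈ B, ∀ p ∈ b, IsP p) →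
    ∀ N : Set (Submodule ℂ V), (∀ W, ∀ l, (act (g l))⁻¹ W ∈ N → W ∈ N) → ⊥ ∉ N →
    ∀ ρ : ℝ, 0 ≤ ρ → ρ < 1 →
    (∀ b ∈ B, ∀ f : L2 (Submodule ℂ V), (∀ W, W ∉ N → f W = 0) → ‖opr (fun l => act (g l)) b f‖ ≤ ρ * ‖f‖) →
    ∀ d : ℕ, ∃ C r : ℝ, 0 ≤ C ∧ 0 < r ∧ r < 1 ∧ ∀ 𝒲 : Set (Submodule ℂ V),
      (∀ W ∈ 𝒲, ∀ l, (act (g l))⁻¹ W ∈ 𝒲) → (∀ W ∈ 𝒲, ∀ W' ≤ W, W' ∈ 𝒲) →
      (∀ W ∈ 𝒲, W ∉ N → ∀ P, hitL g ξ P W = 0) →
      ∀ W ∈ 𝒲, Module.finrank ℂ W ≤ d → ∀ k P, Sc B k P → hitL g ξ P W ≤ C * r ^ k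

open Classical in
/-- (HK) the version of `hit_ker` (W705/JR/Link.lean).  Proof: induction on `n` (generalise `O`), `act_ker`, `draw_cons`,
`∑ l, lp j t l * G l = t * G (true, j) + (1 - t) * G (false, j)`, `Fin.consEquiv`, `xi_mem_iff` for `n = 0`. -/
def S_HK : Prop := ∀ (m : ℕ), 0 < m → ∀ (z : ℂ) (n : ℕ) (O : Outer m) (c : Fin n → Fin (m-1)) (p : Fin n → ℝ),
    hitL gg (xi m) (List.ofFn fun i => lp (c i) (p i)) (LinearMap.ker (fn O z)) =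
      ∑ s : Fin n → Bool, (if ev 3 le_rfl (draw O (toL fun i => ((s i, c i) : Letter m))).close.fPoly = z
        then ∏ i, (if s i then p i else 1 - p i) else 0)

/-- (SCO) the word consists of steps and `k` blocks.  Proof: induction on `n` (strong), cases `k = 0` (all steps);
`k = k' + 1`, `t 0 = 0` (first block, then drop `L` letters, `t' j = t (j+1) - L`), `t 0 > 0` (first letter a step, then
`t' j = t j - 1`); or via `P.drop (t j)`, `List.take L`. -/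
def S_SCO : Prop := ∀ (m L : ℕ) (ε : ℝ), 3 ≤ m → 0 < ε → ∀ (n k : ℕ) (c : Fin n → Fin (m-1)) (p : Fin n → ℝ)
    (t : Fin k → ℕ), (∀ i, 0 ≤ p i ∧ p i ≤ 1) → (∀ j, t j + L ≤ n) → (∀ j j', j < j' → t j + L ≤ t j') →
    (∀ (j : Fin k) (i : Fin n), t j ≤ i → (i : ℕ) < t j + L → ε ≤ p i ∧ p i ≤ 1 - ε) →
    (∀ (j : Fin k) (a : Fin (m-1)), ∃ i : Fin n, t j ≤ i ∧ (i : ℕ) < t j + L ∧ c i = a) →
    Sc (Bl m L ε) k (List.ofFn fun i => lp (c i) (p i))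

end Pool.Agent.J4H23.QT
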